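import Mathlib
import Pool.Agent.Results.MP_95a67a_ag.CodimOneFails

/-!
The fan of the projective line bundle `P(O ⊕ O(s))` over `P^{k+1}`.
-/

set_option autoImplicit false

namespace Pool.Agent.Y241.CO

open MvPolynomial Pool.Agent.Results.MP_95a67a_ag.CodimOneFails

/-- the rays of the base, `0 ≤ i ≤ k + 1` -/
def bs {k : ℕ} (i : Fin (k + 2)) : Fin (k + 4) := ⟨i, by omega⟩

/-- the first ray of the fibre -/
def p1 (k : ℕ) : Fin (k + 4) := ⟨k + 2, by omega⟩

/-- the second ray of the fibre -/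
def p3 (k : ℕ) : Fin (k + 4) := ⟨k + 3, by omega⟩

/-- The rays: `e_0, …, e_k`, `- e_0 - ⋯ - e_k + s e_{k+1}`, `e_{k+1}` and `- e_{k+1}`. -/
def uP (k s : ℕ) (ρ : Fin (k + 4)) (j : Fin (k + 2)) : ℤ :=
  if (ρ : ℕ) = k + 1 then (if (j : ℕ) = k + 1 then (s : ℤ) else -1)
  else if (ρ : ℕ) = k + 2 then (if (j : ℕ) = k + 1 then 1 else 0)
  else if (ρ : ℕ) = k + 3 then (if (j : ℕ) = k + 1 then -1 else 0)
  else (if (j : ℕ) = ρ then 1 else 0)

/-- The cones: the sets of rays which contain neither all the rays of the base nor both rays of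
the fibre. -/
def conesP (k : ℕ) : Set (Finset (Fin (k + 4))) :=
  {σ | ¬ (∀ i : Fin (k + 2), bs i ∈ σ) ∧ ¬ (p1 k ∈ σ ∧ p3 k ∈ σ)}

lemma sum4 {M : Type*} [AddCommMonoid M] {k : ℕ} (g : Fin (k + 4) → M) :
    ∑ ρ, g ρ = (∑ i : Fin (k + 2), g (bs i)) + g (p1 k) + g (p3 k) := by
  rw [Fin.sum_univ_castSucc, Fin.sum_univ_castSucc]
  rfl

lemma sum2 {M : Type*} [AddCommMonoid M] {k : ℕ} (g : Fin (k + 2) → M) :
    ∑ i, g i = (∑ i : Fin (k + 1), g i.castSucc) + g (Fin.last (k + 1)) :=
  Fin.sum_univ_castSucc g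

lemma uP_bs {k s : ℕ} (i : Fin (k + 1)) (j : Fin (k + 2)) :
    uP k s (bs i.castSucc) j = if (j : ℕ) = i then 1 else 0 := by
  have h := i.2
  have h1 : ¬ ((i : ℕ) = k + 1) := by omega
  have h2 : ¬ ((i : ℕ) = k + 2) := by omega
  have h3 : ¬ ((i : ℕ) = k + 3) := by omega
  simp [uP, bs, h1, h2, h3] <;> rfl

lemma uP_last {k s : ℕ} (j : Fin (k + 2)) :
    uP k s (bs (Fin.last (k + 1))) j = if (j : ℕ) = k + 1 then (s : ℤ) else -1 := by
  simp [uP, bs]

lemma uP_p1 {k s : ℕ} (j : Fin (k + 2)) :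
    uP k s (p1 k) j = if (j : ℕ) = k + 1 then 1 else 0 := by
  simp [uP, p1]

lemma uP_p3 {k s : ℕ} (j : Fin (k + 2)) :
    uP k s (p3 k) j = if (j : ℕ) = k + 1 then -1 else 0 := by
  simp [uP, p3]

lemma sum_base {k s : ℕ} (a : Fin (k + 4) → ℝ) (j : Fin (k + 1)) :
    ∑ ρ, a ρ * (uP k s ρ j.castSucc : ℝ) =
      a (bs j.castSucc) - a (bs (Fin.last (k + 1))) := by
  have hj := j.2
  rw [sum4, sum2]
  rw [uP_last, uP_p1, uP_p3, if_neg (by simp only [Fin.val_castSucc]; omega),
    if_neg (by simp only [Fin.val_castSucc]; omega),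
    if_neg (by simp only [Fin.val_castSucc]; omega)]
  rw [Finset.sum_eq_single j]
  · rw [uP_bs, if_pos (by simp)]
    push_cast
    ring
  · intro b _ hb
    rw [uP_bs, if_neg]
    · simp
    · simp only [Fin.val_castSucc]
      intro h
      exact hb (Fin.ext h.symm)
  · intro h
    exact absurd (Finset.mem_univ _) h

lemma sum_fib {k s : ℕ} (a : Fin (k + 4) → ℝ) :
    ∑ ρ, a ρ * (uP k s ρ (Fin.last (k + 1)) : ℝ) =
      s * a (bs (Fin.last (k + 1))) + a (p1 k) - a (p3 k) := by
  rw [sum4, sum2]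
  rw [uP_last, uP_p1, uP_p3, if_pos (by simp), if_pos (by simp), if_pos (by simp)]
  rw [Finset.sum_eq_zero]
  · push_cast
    ring
  · intro i _
    have := i.2
    rw [uP_bs, if_neg (by simp only [Fin.val_last]; omega)]
    simp

lemma cases4 {k : ℕ} (ρ : Fin (k + 4)) :
    (∃ i : Fin (k + 1), ρ = bs i.castSucc) ∨ ρ = bs (Fin.last (k + 1)) ∨ ρ = p1 k ∨ ρ = p3 k := by
  have h := ρ.2
  by_cases h1 : (ρ : ℕ) < k + 1
  · exact Or.inl ⟨⟨ρ, h1⟩, rfl⟩
  · by_cases h2 : (ρ : ℕ) = k + 1
    · exact Or.inr (Or.inl (Fin.ext (by simp [bs, h2])))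
    · by_cases h3 : (ρ : ℕ) = k + 2
      · exact Or.inr (Or.inr (Or.inl (Fin.ext h3)))
      · exact Or.inr (Or.inr (Or.inr (Fin.ext (show (ρ : ℕ) = k + 3 by omega))))

lemma cases2 {k : ℕ} (j : Fin (k + 2)) :
    (∃ i : Fin (k + 1), j = i.castSucc) ∨ j = Fin.last (k + 1) := by
  rcases Fin.eq_castSucc_or_eq_last j with h | h
  · exact Or.inl h
  · exact Or.inr h

lemma unique_rep {k s : ℕ} {σ τ : Finset (Fin (k + 4))} (hσ : σ ∈ conesP k) (hτ : τ ∈ conesP k)
    {a b : Fin (k + 4) → ℝ} (ha : ∀ ρ, 0 ≤ a ρ) (hb : ∀ ρ, 0 ≤ b ρ)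
    (ha' : ∀ ρ, ρ ∉ σ → a ρ = 0) (hb' : ∀ ρ, ρ ∉ τ → b ρ = 0)
    (h : ∀ i, ∑ ρ, a ρ * (uP k s ρ i : ℝ) = ∑ ρ, b ρ * (uP k s ρ i : ℝ)) : a = b := by
  have hbase : ∀ i : Fin (k + 2), a (bs i) - b (bs i) =
      a (bs (Fin.last (k + 1))) - b (bs (Fin.last (k + 1))) := by
    intro i
    rcases cases2 i with ⟨j, rfl⟩ | rfl
    · have := h j.castSucc
      rw [sum_base, sum_base] at this
      linarith
    · rfl
  have hfib := h (Fin.last (k + 1))
  rw [sum_fib, sum_fib] at hfib
  have h0 : a (bs (Fin.last (k + 1))) - b (bs (Fin.last (k + 1))) = 0 := by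
    obtain ⟨i, hi⟩ := not_forall.1 hσ.1
    obtain ⟨j, hj⟩ := not_forall.1 hτ.1
    have h1 := hbase i
    have h2 := hbase j
    rw [ha' _ hi] at h1
    rw [hb' _ hj] at h2
    have h3 := hb (bs i)
    have h4 := ha (bs j)
    linarith
  have a13 : a (p1 k) = 0 ∨ a (p3 k) = 0 := by
    by_cases h : p1 k ∈ σ
    · right; apply ha'; intro h'; exact hσ.2 ⟨h, h'⟩
    · left; exact ha' _ h
  have b13 : b (p1 k) = 0 ∨ b (p3 k) = 0 := by
    by_cases h : p1 k ∈ τ
    · right; apply hb'; intro h'; exact hτ.2 ⟨h, h'⟩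
    · left; exact hb' _ h
  have q1 := ha (p1 k)
  have q2 := ha (p3 k)
  have q3 := hb (p1 k)
  have q4 := hb (p3 k)
  have hb0 : a (bs (Fin.last (k + 1))) = b (bs (Fin.last (k + 1))) := by linarith
  rw [hb0] at hfib
  have e1 : a (p1 k) = b (p1 k) ∧ a (p3 k) = b (p3 k) := by
    rcases a13 with h | h <;> rcases b13 with h' | h' <;> constructor <;> linarith
  funext ρ
  rcases cases4 ρ with ⟨i, rfl⟩ | rfl | rfl | rfl
  · have := hbase i.castSucc
    linarith
  · exact hb0
  · exact e1.1
  · exact e1.2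

/-- The fan of `P(O ⊕ O(s))` over `P^{k+1}`. -/
def fanP (k s : ℕ) : CompleteSimplicialFan (k + 2) (k + 4) where
  u := uP k s
  cones := conesP k
  primitive := by
    intro ρ c v h
    have key : ∀ x : ℤ, c * x = 1 ∨ c * x = -1 → c = 1 ∨ c = -1 := by
      intro x hx
      have : IsUnit c := by
        rcases hx with hx | hx
        · exact IsUnit.of_mul_eq_one _ hx
        · exact IsUnit.of_mul_eq_one (-x) (by linarith)
      exact Int.isUnit_iff.mp this
    rcases cases4 ρ with ⟨i, rfl⟩ | rfl | rfl | rfl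
    · have h1 := congrFun h i.castSucc
      rw [uP_bs, if_pos (by simp)] at h1
      exact key _ (Or.inl h1.symm)
    · have h1 := congrFun h 0
      rw [uP_last, if_neg (by simp)] at h1
      exact key _ (Or.inr h1.symm)
    · have h1 := congrFun h (Fin.last (k + 1))
      rw [uP_p1, if_pos (by simp)] at h1
      exact key _ (Or.inl h1.symm)
    · have h1 := congrFun h (Fin.last (k + 1))
      rw [uP_p3, if_pos (by simp)] at h1
      exact key _ (Or.inr h1.symm)
  ray_mem := by
    intro ρ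
    refine ⟨fun h => ?_, fun h => ?_⟩
    · have h0 := Finset.mem_singleton.1 (h 0)
      have h1 := Finset.mem_singleton.1 (h 1)
      have h2 : (bs (0 : Fin (k + 2))) = bs 1 := h0.trans h1.symm
      have h3 := congrArg Fin.val h2
      simp [bs] at h3
    · have h0 := Finset.mem_singleton.1 h.1
      have h1 := Finset.mem_singleton.1 h.2
      have h2 : p1 k = p3 k := h0.trans h1.symm
      have h3 := congrArg Fin.val h2
      simp [p1, p3] at h3
  face_mem := by
    intro σ hσ τ hτ
    exact ⟨fun h => hσ.1 (fun i => hτ (h i)), fun h => hσ.2 ⟨hτ h.1, hτ h.2⟩⟩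
  simplicial := by
    intro σ hσ
    rw [Fintype.linearIndependent_iff]
    intro g hg
    -- split into positive and negative parts
    classical
    let a : Fin (k + 4) → ℝ := fun ρ => if h : ρ ∈ σ then max (g ⟨ρ, h⟩) 0 else 0
    let b : Fin (k + 4) → ℝ := fun ρ => if h : ρ ∈ σ then max (-g ⟨ρ, h⟩) 0 else 0
    have hab : a = b := by
      refine unique_rep (s := s) hσ hσ ?_ ?_ ?_ ?_ ?_
      · intro ρ; simp only [a]; split_ifs <;> simp
      · intro ρ; simp only [b]; split_ifs <;> simp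
      · intro ρ h; simp only [a]; rw [dif_neg h]
      · intro ρ h; simp only [b]; rw [dif_neg h]
      · intro i
        have hgi := congrFun hg i
        simp only [Finset.sum_apply, Pi.smul_apply, smul_eq_mul, Pi.zero_apply] at hgi
        rw [← sub_eq_zero, ← Finset.sum_sub_distrib]
        rw [← hgi]
        have e1 : ∀ ρ, a ρ * (uP k s ρ i : ℝ) - b ρ * (uP k s ρ i : ℝ) =
            if h : ρ ∈ σ then g ⟨ρ, h⟩ * (uP k s ρ i : ℝ) else 0 := by
          intro ρ
          simp only [a, b]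
          split_ifs with h
          · rw [← sub_mul]
            congr 1
            rcases le_total (g ⟨ρ, h⟩) 0 with h' | h'
            · rw [max_eq_right h', max_eq_left (by linarith)]; ring
            · rw [max_eq_left h', max_eq_right (by linarith)]; ring
          · ring
        rw [Finset.sum_congr rfl (fun ρ _ => e1 ρ),
          ← Finset.sum_subset (Finset.subset_univ σ) (by intro ρ _ h; rw [dif_neg h]),
          ← Finset.sum_attach σ, ← Finset.univ_eq_attach]
        apply Finset.sum_congr rfl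
        intro ρ _
        rw [dif_pos ρ.2]
    intro ρ
    have := congrFun hab ρ
    simp only [a, b, dif_pos ρ.2] at this
    rcases le_total (g ρ) 0 with h' | h'
    · rw [max_eq_right h', max_eq_left (by linarith)] at this; linarith
    · rw [max_eq_left h', max_eq_right (by linarith)] at this; linarith
  inter := by
    intro σ hσ τ hτ
    ext v
    constructor
    · rintro ⟨⟨a, ha, ha', hv⟩, ⟨b, hb, hb', hv'⟩⟩
      have hab := unique_rep hσ hτ ha hb ha' hb' (fun i => by rw [← hv, ← hv'])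
      refine ⟨a, ha, ?_, hv⟩
      intro ρ hρ
      rw [Finset.mem_inter, not_and_or] at hρ
      rcases hρ with h | h
      · exact ha' ρ h
      · rw [hab]; exact hb' ρ h
    · rintro ⟨a, ha, ha', hv⟩
      refine ⟨⟨a, ha, ?_, hv⟩, ⟨a, ha, ?_, hv⟩⟩
      · intro ρ h; exact ha' ρ (fun h' => h (Finset.mem_inter.mp h').1)
      · intro ρ h; exact ha' ρ (fun h' => h (Finset.mem_inter.mp h').2)
  complete := by
    classical
    intro v
    let w : Fin (k + 2) → ℝ := fun i => if (i : ℕ) < k + 1 then v i else 0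
    obtain ⟨i0, _, hi0⟩ := Finset.exists_min_image Finset.univ w ⟨0, Finset.mem_univ _⟩
    let t : ℝ := v (Fin.last (k + 1)) - s * (w (Fin.last (k + 1)) - w i0)
    let a : Fin (k + 4) → ℝ := fun ρ => if h : (ρ : ℕ) < k + 2 then w ⟨ρ, h⟩ - w i0 else
      if (ρ : ℕ) = k + 2 then max t 0 else max (-t) 0
    have abs' : ∀ i, a (bs i) = w i - w i0 := by
      intro i
      have : ((bs i : Fin (k + 4)) : ℕ) < k + 2 := i.2
      simp only [a]
      rw [dif_pos this]
      rfl
    have ap1 : a (p1 k) = max t 0 := by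
      simp [a, p1]
    have ap3 : a (p3 k) = max (-t) 0 := by
      simp [a, p3]
    refine ⟨Finset.univ.filter (fun ρ => a ρ ≠ 0), ?_, a, ?_, ?_, ?_⟩
    · constructor
      · intro h
        have := (Finset.mem_filter.1 (h i0)).2
        apply this
        rw [abs', sub_self]
      · rintro ⟨h1, h2⟩
        have h3 := (Finset.mem_filter.1 h1).2
        have h4 := (Finset.mem_filter.1 h2).2
        rw [ap1] at h3
        rw [ap3] at h4
        rcases le_total t 0 with h | h
        · exact h3 (max_eq_right h)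
        · exact h4 (max_eq_right (by linarith))
    · intro ρ
      have hbs : ∀ i, 0 ≤ a (bs i) := fun i => by
        rw [abs']
        have := hi0 i (Finset.mem_univ _)
        linarith
      rcases cases4 ρ with ⟨i, rfl⟩ | rfl | rfl | rfl
      · exact hbs _
      · exact hbs _
      · rw [ap1]; exact le_max_right _ _
      · rw [ap3]; exact le_max_right _ _
    · intro ρ h
      by_contra h'
      exact h (Finset.mem_filter.mpr ⟨Finset.mem_univ _, h'⟩)
    · intro i
      rcases cases2 i with ⟨j, rfl⟩ | rfl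
      · rw [sum_base, abs', abs']
        have h1 : w j.castSucc = v j.castSucc := by
          simp only [w]
          rw [if_pos (by have := j.2; simp only [Fin.val_castSucc]; omega)]
        have h2 : w (Fin.last (k + 1)) = 0 := by simp [w]
        rw [h1, h2]
        ring
      · rw [sum_fib, abs', ap1, ap3]
        have h2 : w (Fin.last (k + 1)) = 0 := by simp [w]
        have key : max t 0 - max (-t) 0 = t := by
          rcases le_total t 0 with h | h
          · rw [max_eq_right h, max_eq_left (by linarith)]; ring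
          · rw [max_eq_left h, max_eq_right (by linarith)]; ring
        have : s * (w (Fin.last (k + 1)) - w i0) + max t 0 - max (-t) 0 =
            s * (w (Fin.last (k + 1)) - w i0) + t := by linarith
        rw [this]
        simp only [t]
        ring

end Pool.Agent.Y241.CO
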