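import Mathlib
import Pool.Agent.Y241.CO.Fan

/-!
The polynomials on `P(O ⊕ O(s))` over `P^{k+1}` and the lower bound for the codimension.
-/

set_option autoImplicit false

namespace Pool.Agent.Y241.CO

open MvPolynomial Pool.Agent.Results.MP_95a67a_ag.CodimOneFails

variable (k s b : ℕ)

/-- The polynomials `F_0 = y_0 x_1^{b+1}`, `F_i = y_{i-1}^c x_3 + y_i^{c+s} x_1` for
`1 ≤ i ≤ k + 1` and `F_{k+2} = y_{k+1}^c x_3`, where `c = s b`. -/
noncomputable def FP (i : Fin (k + 2 + 1)) : MvPolynomial (Fin (k + 4)) ℂ :=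
  if _h0 : (i : ℕ) = 0 then X (bs 0) * X (p1 k) ^ (b + 1)
  else X (bs ⟨(i : ℕ) - 1, by omega⟩) ^ (s * b) * X (p3 k) +
    (if h : (i : ℕ) < k + 2 then X (bs ⟨i, h⟩) ^ (s * b + s) * X (p1 k) else 0)

/-- the class of a fibre -/
def cf : Cl (fanP k s) := degX (fanP k s) (bs (Fin.last (k + 1)))

/-- the class of the first section -/
def ce : Cl (fanP k s) := degX (fanP k s) (p1 k)

/-- the degrees -/
def αP (i : Fin (k + 2 + 1)) : Cl (fanP k s) :=
  if (i : ℕ) = 0 then cf k s + (b + 1) • ce k s else ce k s + (s * b + s) • cf k s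

variable {k s b}

lemma deg_bs (i : Fin (k + 2)) : degX (fanP k s) (bs i) = cf k s := by
  rcases cases2 i with ⟨j, rfl⟩ | rfl
  · unfold cf degX
    rw [Submodule.Quotient.eq]
    refine ⟨Pi.single j.castSucc 1, ?_⟩
    funext ρ
    have h1 : divMap (fanP k s) (Pi.single j.castSucc 1) ρ = uP k s ρ j.castSucc := by
      change ∑ i, (Pi.single j.castSucc (1 : ℤ) : Fin (k + 2) → ℤ) i * uP k s ρ i = _
      rw [Finset.sum_eq_single j.castSucc]
      · rw [Pi.single_eq_same, one_mul]
      · intro i _ hi
        rw [Pi.single_eq_of_ne hi, zero_mul]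
      · intro h; exact absurd (Finset.mem_univ _) h
    rw [h1, Pi.sub_apply]
    have hj := j.2
    rcases cases4 ρ with ⟨i, rfl⟩ | rfl | rfl | rfl
    · rw [uP_bs]
      by_cases hij : i = j
      · subst hij
        rw [if_pos (by simp), Pi.single_eq_same, Pi.single_eq_of_ne, sub_zero]
        intro h
        have := congrArg Fin.val h
        simp [bs] at this
        omega
      · rw [if_neg, Pi.single_eq_of_ne, Pi.single_eq_of_ne, sub_zero]
        · intro h
          have := congrArg Fin.val h
          have h2 := i.2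
          simp [bs] at this
          omega
        · intro h
          have := congrArg Fin.val h
          simp [bs] at this
          exact hij (Fin.ext this)
        · simp only [Fin.val_castSucc]
          intro h
          exact hij (Fin.ext h.symm)
    · rw [uP_last, if_neg (by simp only [Fin.val_castSucc]; omega), Pi.single_eq_same,
        Pi.single_eq_of_ne]
      · norm_num
      · intro h
        have := congrArg Fin.val h
        simp [bs] at this
        omega
    · rw [uP_p1, if_neg (by simp only [Fin.val_castSucc]; omega), Pi.single_eq_of_ne,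
        Pi.single_eq_of_ne, sub_zero]
      · intro h
        have := congrArg Fin.val h
        simp [bs, p1] at this
      · intro h
        have := congrArg Fin.val h
        simp [bs, p1] at this
        omega
    · rw [uP_p3, if_neg (by simp only [Fin.val_castSucc]; omega), Pi.single_eq_of_ne,
        Pi.single_eq_of_ne, sub_zero]
      · intro h
        have := congrArg Fin.val h
        simp [bs, p3] at this
      · intro h
        have := congrArg Fin.val h
        simp [bs, p3] at this
        omega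
  · rfl

lemma deg_p3 : degX (fanP k s) (p3 k) = ce k s + s • cf k s := by
  unfold ce cf degX
  rw [← Submodule.Quotient.mk_smul, ← Submodule.Quotient.mk_add, Submodule.Quotient.eq]
  refine ⟨Pi.single (Fin.last (k + 1)) (-1), ?_⟩
  funext ρ
  have h1 : divMap (fanP k s) (Pi.single (Fin.last (k + 1)) (-1)) ρ =
      - uP k s ρ (Fin.last (k + 1)) := by
    change ∑ i, (Pi.single (Fin.last (k + 1)) (-1 : ℤ) : Fin (k + 2) → ℤ) i * uP k s ρ i = _
    rw [Finset.sum_eq_single (Fin.last (k + 1))]
    · rw [Pi.single_eq_same]; ring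
    · intro i _ hi
      rw [Pi.single_eq_of_ne hi, zero_mul]
    · intro h; exact absurd (Finset.mem_univ _) h
  rw [h1, Pi.sub_apply, Pi.add_apply, Pi.smul_apply]
  rcases cases4 ρ with ⟨i, rfl⟩ | rfl | rfl | rfl
  · have hi := i.2
    rw [uP_bs, if_neg (by simp only [Fin.val_last]; omega), Pi.single_eq_of_ne,
      Pi.single_eq_of_ne, Pi.single_eq_of_ne]
    · simp
    · intro h
      have := congrArg Fin.val h
      simp [bs] at this
      omega
    · intro h
      have := congrArg Fin.val h
      simp [bs, p1] at this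
      omega
    · intro h
      have := congrArg Fin.val h
      simp [bs, p3] at this
      omega
  · rw [uP_last, if_pos (by simp), Pi.single_eq_of_ne, Pi.single_eq_of_ne, Pi.single_eq_same]
    · simp
    · intro h
      have := congrArg Fin.val h
      simp [bs, p1] at this
    · intro h
      have := congrArg Fin.val h
      simp [bs, p3] at this
  · rw [uP_p1, if_pos (by simp), Pi.single_eq_of_ne, Pi.single_eq_same, Pi.single_eq_of_ne]
    · simp
    · intro h
      have := congrArg Fin.val h
      simp [bs, p1] at this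
    · intro h
      have := congrArg Fin.val h
      simp [p3, p1] at this
  · rw [uP_p3, if_pos (by simp), Pi.single_eq_same, Pi.single_eq_of_ne, Pi.single_eq_of_ne]
    · simp
    · intro h
      have := congrArg Fin.val h
      simp [bs, p3] at this
    · intro h
      have := congrArg Fin.val h
      simp [p3, p1] at this

lemma sum_deg : ∑ ρ, degX (fanP k s) ρ = (k + 2) • cf k s + ce k s + (ce k s + s • cf k s) := by
  rw [sum4, Finset.sum_congr rfl fun i _ => deg_bs i, deg_p3, Finset.sum_const, Finset.card_univ,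
    Fintype.card_fin]
  rfl

lemma sum_α : ∑ i, αP k s b i = (cf k s + (b + 1) • ce k s) +
    (k + 2) • (ce k s + (s * b + s) • cf k s) := by
  rw [Fin.sum_univ_succ]
  have h0 : αP k s b 0 = cf k s + (b + 1) • ce k s := by simp [αP]
  have h1 : ∀ i : Fin (k + 2), αP k s b i.succ = ce k s + (s * b + s) • cf k s := by
    intro i; simp [αP]
  rw [h0, Finset.sum_congr rfl fun i _ => h1 i, Finset.sum_const, Finset.card_univ,
    Fintype.card_fin]

lemma hom_FP (i : Fin (k + 2 + 1)) :
    IsWeightedHomogeneous (degX (fanP k s)) (FP k s b i) (αP k s b i) := by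
  have hX := fun i => isWeightedHomogeneous_X ℂ (degX (fanP k s)) i
  unfold FP αP
  by_cases h0 : (i : ℕ) = 0
  · rw [dif_pos h0, if_pos h0]
    have h := (hX (bs 0)).mul ((hX (p1 k)).pow (b + 1))
    rw [deg_bs] at h
    exact h
  · rw [dif_neg h0, if_neg h0]
    have h1 := ((hX (bs ⟨(i : ℕ) - 1, by omega⟩)).pow (s * b)).mul (hX (p3 k))
    rw [deg_bs, deg_p3] at h1
    have e1 : (s * b) • cf k s + (ce k s + s • cf k s) = ce k s + (s * b + s) • cf k s := by
      rw [add_smul]; abel
    rw [e1] at h1
    refine h1.add ?_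
    split_ifs with h
    · have h2 := ((hX (bs ⟨(i : ℕ), h⟩)).pow (s * b + s)).mul (hX (p1 k))
      rw [deg_bs] at h2
      have e2 : (s * b + s) • cf k s + degX (fanP k s) (p1 k) =
          ce k s + (s * b + s) • cf k s := add_comm _ (ce k s)
      rw [e2] at h2
      exact h2
    · exact isWeightedHomogeneous_zero ℂ _ _

lemma mem_y1 (i : Fin (k + 2)) :
    (X (bs i) * X (p1 k) : MvPolynomial (Fin (k + 4)) ℂ) ∈ irrelevant (fanP k s) := by
  classical
  refine Ideal.subset_span ⟨{bs i, p1 k}ᶜ, ⟨fun h => ?_, fun h => ?_⟩, ?_⟩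
  · have := h i
    simp at this
  · have := h.1
    simp at this
  · rw [compl_compl, Finset.prod_pair]
    intro h
    have h2 := i.2
    have := congrArg Fin.val h
    simp [bs, p1] at this
    omega

lemma mem_y3 (i : Fin (k + 2)) :
    (X (bs i) * X (p3 k) : MvPolynomial (Fin (k + 4)) ℂ) ∈ irrelevant (fanP k s) := by
  classical
  refine Ideal.subset_span ⟨{bs i, p3 k}ᶜ, ⟨fun h => ?_, fun h => ?_⟩, ?_⟩
  · have := h i
    simp at this
  · have := h.2
    simp at this
  · rw [compl_compl, Finset.prod_pair]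
    intro h
    have h2 := i.2
    have := congrArg Fin.val h
    simp [bs, p3] at this
    omega

lemma FP_mem (hs : 0 < s) (hb : 0 < b) (i : Fin (k + 2 + 1)) :
    FP k s b i ∈ irrelevant (fanP k s) := by
  unfold FP
  by_cases h0 : (i : ℕ) = 0
  · rw [dif_pos h0, pow_succ']
    have := Ideal.mul_mem_right (X (p1 k) ^ b) _ (mem_y1 (k := k) (s := s) 0)
    rwa [mul_assoc] at this
  · rw [dif_neg h0]
    refine Ideal.add_mem _ ?_ ?_
    · obtain ⟨c, hc⟩ : ∃ c, s * b = c + 1 := ⟨s * b - 1, by
        have := Nat.mul_pos hs hb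
        omega⟩
      rw [hc, pow_succ, mul_assoc]
      exact Ideal.mul_mem_left _ _ (mem_y3 _)
    · split_ifs with h
      · obtain ⟨c, hc⟩ : ∃ c, s * b + s = c + 1 := ⟨s * b + s - 1, by omega⟩
        rw [hc, pow_succ, mul_assoc]
        exact Ideal.mul_mem_left _ _ (mem_y1 _)
      · exact Ideal.zero_mem _

lemma noCommonZero_P (hs : 0 < s) (hb : 0 < b) : NoCommonZero (fanP k s) (FP k s b) := by
  intro x hx bb hbb
  have hc : s * b ≠ 0 := (Nat.mul_pos hs hb).ne'
  have F0 : x (bs 0) * x (p1 k) ^ (b + 1) = 0 := by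
    have := hx 0
    simpa [FP] using this
  have Fi : ∀ i : ℕ, ∀ h : i + 1 < k + 2,
      x (bs ⟨i, by omega⟩) ^ (s * b) * x (p3 k) + x (bs ⟨i + 1, h⟩) ^ (s * b + s) * x (p1 k) = 0 := by
    intro i h
    have h1 := hx ⟨i + 1, by omega⟩
    have h2 : FP k s b ⟨i + 1, by omega⟩ = X (bs ⟨i, by omega⟩) ^ (s * b) * X (p3 k) +
        X (bs ⟨i + 1, h⟩) ^ (s * b + s) * X (p1 k) := by
      unfold FP
      rw [dif_neg (show ¬ (i + 1 = 0) by omega), dif_pos h]
      rfl
    rw [h2] at h1
    simpa using h1
  have Fl : x (bs (Fin.last (k + 1))) ^ (s * b) * x (p3 k) = 0 := by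
    have h1 := hx (Fin.last (k + 2))
    have h2 : FP k s b (Fin.last (k + 2)) = X (bs (Fin.last (k + 1))) ^ (s * b) * X (p3 k) := by
      unfold FP
      rw [dif_neg (by simp), dif_neg (by simp), add_zero]
      rfl
    rw [h2] at h1
    simpa using h1
  have key : (∀ i : Fin (k + 2), x (bs i) = 0) ∨ (x (p1 k) = 0 ∧ x (p3 k) = 0) := by
    by_cases h3 : x (p3 k) = 0
    · by_cases h1 : x (p1 k) = 0
      · exact Or.inr ⟨h1, h3⟩
      · left
        rintro ⟨i, hi⟩
        rcases Nat.eq_zero_or_pos i with h | h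
        · subst h
          rcases mul_eq_zero.1 F0 with h | h
          · exact h
          · exact absurd (eq_zero_of_pow_eq_zero h) h1
        · obtain ⟨j, rfl⟩ : ∃ j, i = j + 1 := ⟨i - 1, by omega⟩
          have h4 := Fi j hi
          rw [h3, mul_zero, zero_add] at h4
          rcases mul_eq_zero.1 h4 with h | h
          · exact eq_zero_of_pow_eq_zero h
          · exact absurd h h1
    · left
      have hlast : x (bs (Fin.last (k + 1))) = 0 := by
        rcases mul_eq_zero.1 Fl with h | h
        · exact eq_zero_of_pow_eq_zero h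
        · exact absurd h h3
      have down : ∀ j : ℕ, ∀ h : k + 1 - j < k + 2, x (bs ⟨k + 1 - j, h⟩) = 0 := by
        intro j
        induction j with
        | zero => intro _; exact hlast
        | succ j ih =>
          intro h
          by_cases hj : j ≤ k
          · have e : k + 1 - j = (k + 1 - (j + 1)) + 1 := by omega
            have h4 := Fi (k + 1 - (j + 1)) (by omega)
            have h5 := ih (by omega)
            have h6 : x (bs ⟨(k + 1 - (j + 1)) + 1, by omega⟩) = 0 := by
              rw [← h5]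
              congr 2
              exact Fin.ext e.symm
            rw [h6, zero_pow (by omega), zero_mul, add_zero] at h4
            rcases mul_eq_zero.1 h4 with h | h
            · exact eq_zero_of_pow_eq_zero h
            · exact absurd h h3
          · have e : k + 1 - (j + 1) = k + 1 - j := by omega
            have h5 := ih (by omega)
            rw [← h5]
            congr 2
            exact Fin.ext e
      rintro ⟨i, hi⟩
      have := down (k + 1 - i) (by omega)
      rw [← this]
      congr 2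
      exact Fin.ext (show i = k + 1 - (k + 1 - i) by omega)
  have hle : irrelevant (fanP k s) ≤ RingHom.ker (eval x) := by
    unfold irrelevant
    rw [Ideal.span_le]
    rintro p ⟨σ, hσ, rfl⟩
    change eval x (∏ ρ ∈ σᶜ, X ρ) = 0
    rw [map_prod]
    simp only [eval_X]
    rcases key with k0 | ⟨k1, k3⟩
    · obtain ⟨i, hi⟩ := not_forall.1 hσ.1
      exact Finset.prod_eq_zero (Finset.mem_compl.mpr hi) (k0 i)
    · by_cases h : p1 k ∈ σ
      · have h' : p3 k ∉ σ := fun h' => hσ.2 ⟨h, h'⟩
        exact Finset.prod_eq_zero (Finset.mem_compl.mpr h') k3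
      · exact Finset.prod_eq_zero (Finset.mem_compl.mpr h) k1
  exact hle hbb

/-! ### the monomials -/

/-- The exponents of `y_0^{c-1-t} y_1^t y_2^{c-1} ⋯ y_{k+1}^{c-1} x_3^{b+k+1}`. -/
noncomputable def mu (k s b : ℕ) (t : ℕ) : Fin (k + 4) →₀ ℕ := Finsupp.equivFunOnFinite.symm
  (fun ρ => if (ρ : ℕ) = 0 then s * b - 1 - t else if (ρ : ℕ) = 1 then t else
    if (ρ : ℕ) < k + 2 then s * b - 1 else if (ρ : ℕ) = k + 2 then 0 else b + k + 1)

lemma mu_p1 (t : ℕ) : mu k s b t (p1 k) = 0 := by
  simp [mu, p1]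

lemma mu_p3 (t : ℕ) : mu k s b t (p3 k) = b + k + 1 := by
  simp [mu, p3]

lemma mu_bs (t : ℕ) (i : Fin (k + 2)) : mu k s b t (bs i) =
    if (i : ℕ) = 0 then s * b - 1 - t else if (i : ℕ) = 1 then t else s * b - 1 := by
  have := i.2
  simp [mu, bs]

lemma mu_lt (t : ℕ) (ht : t < s * b) (i : Fin (k + 2)) : mu k s b t (bs i) < s * b := by
  rw [mu_bs]
  split_ifs <;> omega

lemma mu_sum (t : ℕ) (ht : t < s * b) :
    ∑ i : Fin (k + 2), mu k s b t (bs i) = (k + 1) * (s * b - 1) := by
  rw [Fin.sum_univ_succ, Fin.sum_univ_succ]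
  have h0 : mu k s b t (bs 0) = s * b - 1 - t := by rw [mu_bs, if_pos (by simp)]
  have h1 : mu k s b t (bs (Fin.succ 0)) = t := by
    rw [mu_bs, if_neg (by simp), if_pos (by simp)]
  have h2 : ∀ i : Fin k, mu k s b t (bs i.succ.succ) = s * b - 1 := by
    intro i
    rw [mu_bs, if_neg (by simp), if_neg (by simp)]
  rw [h0, h1, Finset.sum_congr rfl fun i _ => h2 i, Finset.sum_const, Finset.card_univ,
    Fintype.card_fin, smul_eq_mul, add_mul, one_mul]
  omega

lemma mu_hom (hs : 0 < s) (hb : 0 < b) (t : ℕ) (ht : t < s * b) :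
    (monomial (mu k s b t) (1 : ℂ)) ∈ weightedHomogeneousSubmodule ℂ (degX (fanP k s))
      (critical (fanP k s) (αP k s b)) := by
  rw [mem_weightedHomogeneousSubmodule]
  apply isWeightedHomogeneous_monomial
  rw [Finsupp.weight_apply, Finsupp.sum_fintype _ _ (by intro i; simp), sum4]
  rw [Finset.sum_congr rfl fun i _ => by rw [deg_bs], ← Finset.sum_smul, mu_sum t ht, mu_p1,
    mu_p3, deg_p3, zero_smul, add_zero]
  unfold critical
  rw [sum_α, sum_deg]
  obtain ⟨c, hc⟩ : ∃ c, s * b = c + 1 := ⟨s * b - 1, by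
    have := Nat.mul_pos hs hb
    omega⟩
  rw [eq_sub_iff_add_eq, hc, Nat.add_sub_cancel]
  have hz : (s : ℤ) * b = c + 1 := by exact_mod_cast hc
  generalize cf k s = f
  generalize ce k s = e
  have e1 : ((k + 1) * c) • f + (b + k + 1) • (e + s • f) + ((k + 2) • f + e + (e + s • f)) =
      (b + k + 3) • e + (k * c + c + b * s + k * s + s + k + 2 + s) • f := by
    module
  have e2 : f + (b + 1) • e + (k + 2) • (e + (c + 1 + s) • f) =
      (b + k + 3) • e + (k * c + 2 * c + k + 2 + k * s + 2 * s + 1) • f := by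
    module
  rw [e1, e2]
  congr 2
  have : b * s = c + 1 := by rw [mul_comm]; exact hc
  omega

lemma coeff_kill (μ : Fin (k + 4) →₀ ℕ) (ρ : Fin (k + 4)) (e : ℕ) (h : μ ρ < e)
    (g : MvPolynomial (Fin (k + 4)) ℂ) : coeff μ (g * X ρ ^ e) = 0 := by
  classical
  rw [X_pow_eq_monomial, coeff_mul_monomial', if_neg]
  intro hle
  have := Finsupp.le_def.1 hle ρ
  rw [Finsupp.single_eq_same] at this
  omega

/-- the functionals -/
noncomputable def Lam (k s b : ℕ) : MvPolynomial (Fin (k + 4)) ℂ →ₗ[ℂ] (Fin (s * b) → ℂ) where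
  toFun p := fun t => coeff (mu k s b t) p
  map_add' := by
    intro p q
    funext t
    simp
  map_smul' := by
    intro c p
    funext t
    simp

lemma Lam_mul_FP (g : MvPolynomial (Fin (k + 4)) ℂ) (i : Fin (k + 2 + 1)) :
    Lam k s b (g * FP k s b i) = 0 := by
  funext t
  change coeff (mu k s b t) (g * FP k s b i) = 0
  have k1 : ∀ (e : ℕ) (_ : 0 < e) (q : MvPolynomial (Fin (k + 4)) ℂ),
      coeff (mu k s b t) (q * X (p1 k) ^ e) = 0 := by
    intro e he q
    apply coeff_kill
    rw [mu_p1]
    exact he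
  unfold FP
  by_cases h0 : (i : ℕ) = 0
  · rw [dif_pos h0, ← mul_assoc]
    exact k1 _ (by omega) _
  · rw [dif_neg h0, mul_add, coeff_add]
    have h1 : coeff (mu k s b t) (g * (X (bs ⟨(i : ℕ) - 1, by omega⟩) ^ (s * b) * X (p3 k))) =
        0 := by
      rw [mul_comm (X _ ^ (s * b)), ← mul_assoc]
      apply coeff_kill
      exact mu_lt t t.2 _
    rw [h1, zero_add]
    split_ifs with h
    · rw [← mul_assoc]
      have := k1 1 one_pos (g * X (bs ⟨(i : ℕ), h⟩) ^ (s * b + s))
      rwa [pow_one] at this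
    · rw [mul_zero, coeff_zero]

lemma Lam_ideal (p : MvPolynomial (Fin (k + 4)) ℂ)
    (hp : p ∈ Ideal.span (Set.range (FP k s b))) : Lam k s b p = 0 := by
  obtain ⟨c, rfl⟩ := (Ideal.mem_span_range_iff_exists_fun).mp hp
  rw [map_sum]
  exact Finset.sum_eq_zero (fun i _ => Lam_mul_FP _ i)

lemma mu_inj (t t' : ℕ) (h : mu k s b t = mu k s b t') : t = t' := by
  have h1 := DFunLike.congr_fun h (bs 1)
  rw [mu_bs, mu_bs] at h1
  simpa using h1

/-- The map from the quotient to `ℂ ^ c`. -/
noncomputable def LamQ (k s b : ℕ) :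
    (weightedHomogeneousSubmodule ℂ (degX (fanP k s)) (critical (fanP k s) (αP k s b)) ⧸
      idealPiece (fanP k s) (FP k s b) (critical (fanP k s) (αP k s b))) →ₗ[ℂ]
      (Fin (s * b) → ℂ) :=
  (idealPiece (fanP k s) (FP k s b) (critical (fanP k s) (αP k s b))).liftQ
    (Lam k s b ∘ₗ (weightedHomogeneousSubmodule ℂ (degX (fanP k s))
      (critical (fanP k s) (αP k s b))).subtype)
    (by
      intro p hp
      exact Lam_ideal _ hp)

lemma LamQ_surj (hs : 0 < s) (hb : 0 < b) : Function.Surjective (LamQ k s b) := by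
  classical
  intro v
  refine ⟨Submodule.Quotient.mk (∑ t : Fin (s * b), v t • ⟨_, mu_hom hs hb t t.2⟩), ?_⟩
  have : LamQ k s b (Submodule.Quotient.mk (∑ t : Fin (s * b), v t •
      ⟨_, mu_hom hs hb t t.2⟩)) = Lam k s b (((∑ t : Fin (s * b), v t •
      (⟨_, mu_hom hs hb t t.2⟩ : weightedHomogeneousSubmodule ℂ (degX (fanP k s))
        (critical (fanP k s) (αP k s b)))) : weightedHomogeneousSubmodule ℂ (degX (fanP k s))
        (critical (fanP k s) (αP k s b))) : MvPolynomial (Fin (k + 4)) ℂ) := rfl
  rw [this]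
  funext j
  change coeff (mu k s b j) _ = v j
  rw [Submodule.coe_sum, coeff_sum, Finset.sum_eq_single j]
  · change coeff (mu k s b j) (v j • monomial (mu k s b j) (1 : ℂ)) = v j
    rw [coeff_smul, coeff_monomial, if_pos rfl, smul_eq_mul, mul_one]
  · intro t _ ht
    change coeff (mu k s b j) (v t • monomial (mu k s b t) (1 : ℂ)) = 0
    rw [coeff_smul, coeff_monomial, if_neg, smul_zero]
    intro h
    exact ht (Fin.ext (mu_inj _ _ h))
  · intro h
    exact absurd (Finset.mem_univ _) h

/-- **The codimension is unbounded.** -/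
theorem rank_ge (hs : 0 < s) (hb : 0 < b) :
    ((s * b : ℕ) : Cardinal) ≤ Module.rank ℂ (weightedHomogeneousSubmodule ℂ (degX (fanP k s))
      (critical (fanP k s) (αP k s b)) ⧸
      idealPiece (fanP k s) (FP k s b) (critical (fanP k s) (αP k s b))) := by
  have h2 := (LamQ k s b).rank_le_of_surjective (LamQ_surj hs hb)
  rw [rank_fun'] at h2
  simpa using h2

end Pool.Agent.Y241.CO
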